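import Pool.Agent.helper47.TFQ.Spec

/-! # Project tfq, row QB3 -/

set_option autoImplicit false

namespace Pool.Agent.TFQ

open Polynomial Pool.Agent.GJ Pool.Agent.TK
open Pool.Agent.FJ (VT Om chiO IsFrobO rf rs)
open Pool.Agent.TD (zK)

noncomputable section

theorem QB3_ru_pow {l : ℕ} [Fact l.Prime] (z : Om) (hz : z ^ l = 1) (e : ℕ) :
    ru l (z ^ e) = (ru l z) ^ e := by
  have h1 : (z ^ e) ^ l = 1 := by rw [← pow_mul, mul_comm, pow_mul, hz, one_pow]
  apply Subtype.ext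
  apply Units.ext
  rw [ru, dif_pos h1, ru, dif_pos hz]
  simp

theorem QB3_ru_coe {l : ℕ} [Fact l.Prime] (z : Om) (hz : z ^ l = 1) :
    (((ru l z : rootsOfUnity l Om) : Omˣ) : Om) = z := by
  rw [ru, dif_pos hz]
  simp

/-- the roots of unity on `V_q` of one curve -/
theorem QB3_facts (hB : TQ.NB1_stmt) (l n q : ℕ) [Fact l.Prime] [Fact q.Prime] (μ : Fin (n + 1) → ℕ)
    (a : Fin (n + 1) → Om) [hg : Good Om l μ a] [hd : IsDedekindDomain (CR Om l μ a)] :
    (∀ s s' : rootsOfUnity l Om, (zK q (s * s') : Module.End ℚ_[q] (VT q (JC Om l μ a))) =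
      zK q s * zK q s') ∧
    (zK q (1 : rootsOfUnity l Om) : Module.End ℚ_[q] (VT q (JC Om l μ a))) = 1 ∧
    ∀ s : rootsOfUnity l Om, Prim s →
      ∑ j ∈ Finset.range l, (zK q s : Module.End ℚ_[q] (VT q (JC Om l μ a))) ^ j = 0 := by
  let D : Dat l :=
    { k := 1
      n := fun _ => n
      μ := fun _ => μ
      a := fun _ => a
      good := fun _ => hg
      e := fun _ => 1
      r := 0
      m := fun j => j.elim0
      pos := fun j => j.elim0 }
  have : ∀ i, IsDedekindDomain (CR Om l (D.μ i) (D.a i)) := fun _ => hd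
  obtain ⟨-, -, -, hmul, hone, -, hsum, -⟩ := hB l q D
  exact ⟨hmul 0, hone 0, hsum 0⟩

theorem QB3_main (hG : QG2_stmt) (hB : TQ.NB1_stmt) (l n q : ℕ) [Fact l.Prime] [Fact q.Prime]
    (μ : Fin (n + 1) → ℕ) (a : Fin (n + 1) → Om) [Good Om l μ a] [IsDedekindDomain (CR Om l μ a)]
    (F : Type) [Field F] [Fintype F] [DecidableEq F] (χ : MulChar F Om) (hχ : orderOf χ = l)
    (lam : Fin (n + 1) → F) (hlam : ∀ j, lam j ≠ 0) :
    ∃ (Z : Module.End ℚ_[q] (VT q (JC Om l μ a))) (P : ℤ[X]),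
      cWQ μ a q χ lam = (-1) ^ n * aeval Z (P.comp (X ^ (l - 1))) ∧
      cWbQ μ a q χ lam = (-1) ^ n * aeval Z P ∧
      aeval Z (P * P.comp (X ^ (l - 1)) - C ((cq F : ℤ) ^ n)) = 0 := by
  classical
  have hl : l.Prime := Fact.out
  have hl1 : 0 < l := hl.pos
  have : NeZero (l : Om) := ⟨Nat.cast_ne_zero.2 hl.ne_zero⟩
  obtain ⟨z, hz⟩ : ∃ z : Om, IsPrimitiveRoot z l := by
    have hdeg : (cyclotomic l Om).degree ≠ 0 := by
      rw [degree_cyclotomic]
      exact_mod_cast (Nat.totient_pos.2 hl1).ne'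
    obtain ⟨z, hz⟩ := IsAlgClosed.exists_root (cyclotomic l Om) hdeg
    exact ⟨z, isRoot_cyclotomic_iff.1 hz⟩
  set s : rootsOfUnity l Om := ru l z with hsdef
  have hsz : (((s : rootsOfUnity l Om) : Omˣ) : Om) = z := QB3_ru_coe z hz.pow_eq_one
  have hs : Prim s := by
    show IsPrimitiveRoot _ l
    rw [hsz]
    exact hz
  obtain ⟨hmul, hone, hsum⟩ := QB3_facts hB l n q μ a
  set Z : Module.End ℚ_[q] (VT q (JC Om l μ a)) := zK q s with hZ
  have hpow : ∀ (t : rootsOfUnity l Om) (e : ℕ),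
      (zK q (t ^ e) : Module.End ℚ_[q] (VT q (JC Om l μ a))) = (zK q t : Module.End ℚ_[q] (VT q (JC Om l μ a))) ^ e := by
    intro t e
    induction e with
    | zero =>
      rw [pow_zero, pow_zero]
      exact hone
    | succ e ih =>
      rw [pow_succ, pow_succ, ← ih]
      exact hmul (t ^ e) t
  have hcyc : aeval Z (cyclotomic l ℤ) = 0 := by
    rw [cyclotomic_prime, map_sum]
    simp only [map_pow, aeval_X]
    exact hsum s hs
  -- the exponents
  have hχl : ∀ a : F, a ≠ 0 → χ a ^ l = 1 := by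
    intro a ha
    have h1 : (χ ^ l) a = 1 := by
      rw [← hχ, pow_orderOf_eq_one]
      exact MulChar.one_apply (isUnit_iff_ne_zero.2 ha)
    rwa [MulChar.pow_apply' _ hl.ne_zero] at h1
  set xw : (Fin (n + 1) → F) → Om := fun w => ∏ j, χ (w j) ^ μ j with hxw
  have hx1 : ∀ w, (∀ j, w j ≠ 0) → xw w ^ l = 1 := by
    intro w hw
    rw [hxw]
    show (∏ j, χ (w j) ^ μ j) ^ l = 1
    rw [← Finset.prod_pow]
    refine Finset.prod_eq_one fun j _ => ?_
    rw [← pow_mul, mul_comm, pow_mul, hχl _ (hw j), one_pow]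
  have hex : ∀ w, ∃ e : ℕ, (∀ j, w j ≠ 0) → z ^ e = xw w := by
    intro w
    by_cases hw : ∀ j, w j ≠ 0
    · obtain ⟨e, -, he⟩ := hz.eq_pow_of_pow_eq_one (hx1 w hw)
      exact ⟨e, fun _ => he⟩
    · exact ⟨0, fun h => absurd h hw⟩
  choose e he using hex
  set P : ℤ[X] := ∑ w : Fin (n + 1) → F,
    if ∑ j, lam j * w j = 1 ∧ ∀ j, w j ≠ 0 then X ^ e w else 0 with hP
  have hsinv : s⁻¹ = s ^ (l - 1) := by
    rw [inv_eq_iff_mul_eq_one, ← pow_succ', Nat.sub_add_cancel hl.one_lt.le]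
    apply Subtype.ext
    exact s.2
  have hru : ∀ w, (∀ j, w j ≠ 0) → ru l (xw w) = s ^ e w := by
    intro w hw
    rw [← he w hw, QB3_ru_pow z hz.pow_eq_one]
  have hPev : ∀ {S : Type} [Ring S] [Algebra ℤ S] (y : S), aeval y P = ∑ w : Fin (n + 1) → F,
      if ∑ j, lam j * w j = 1 ∧ ∀ j, w j ≠ 0 then y ^ e w else 0 := by
    intro S _ _ y
    rw [hP, map_sum]
    refine Finset.sum_congr rfl fun w _ => ?_
    by_cases hw : ∑ j, lam j * w j = 1 ∧ ∀ j, w j ≠ 0
    · rw [if_pos hw, if_pos hw, map_pow, aeval_X]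
    · rw [if_neg hw, if_neg hw, map_zero]
  have hPev2 : ∀ {S : Type} [Ring S] [Algebra ℤ S] (y : S), aeval y (P.comp (X ^ (l - 1))) =
      aeval (y ^ (l - 1)) P := by
    intro S _ _ y
    rw [aeval_comp, map_pow, aeval_X]
  refine ⟨Z, P, ?_, ?_, ?_⟩
  · rw [cWQ, hPev2, hPev]
    refine congrArg (fun T => (-1) ^ n * T) ?_
    refine Finset.sum_congr rfl fun w _ => ?_
    by_cases hw : ∑ j, lam j * w j = 1 ∧ ∀ j, w j ≠ 0
    · rw [if_pos hw, if_pos hw]
      have h1 : (ru l (∏ j, χ (w j) ^ μ j))⁻¹ = (s ^ (l - 1)) ^ e w := by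
        rw [← hsinv, inv_pow]
        exact congrArg (fun t => t⁻¹) (hru w hw.2)
      rw [h1, hpow, hpow]
    · rw [if_neg hw, if_neg hw]
  · rw [cWbQ, hPev]
    refine congrArg (fun T => (-1) ^ n * T) ?_
    refine Finset.sum_congr rfl fun w _ => ?_
    by_cases hw : ∑ j, lam j * w j = 1 ∧ ∀ j, w j ≠ 0
    · rw [if_pos hw, if_pos hw]
      have h1 : ru l (∏ j, χ (w j) ^ μ j) = s ^ e w := hru w hw.2
      rw [h1, hpow]
    · rw [if_neg hw, if_neg hw]
  · have hcJ : ∀ m : ℕ, 0 < m → cJQ χ μ lam m = aeval (z ^ m) P := by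
      intro m hm
      rw [hPev, cJQ]
      refine Finset.sum_congr rfl fun w _ => ?_
      by_cases h1 : ∑ j, lam j * w j = 1
      · rw [if_pos h1]
        by_cases h2 : ∀ j, w j ≠ 0
        · rw [if_pos ⟨h1, h2⟩, ← pow_mul, mul_comm, pow_mul, he w h2, hxw]
          show _ = (∏ j, χ (w j) ^ μ j) ^ m
          rw [← Finset.prod_pow]
          refine Finset.prod_congr rfl fun j _ => ?_
          rw [← pow_mul, mul_comm]
        · rw [if_neg (fun h => h2 h.2)]
          rw [not_forall] at h2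
          obtain ⟨j, hj⟩ := h2
          rw [not_not] at hj
          refine Finset.prod_eq_zero (Finset.mem_univ j) ?_
          rw [hj, MulChar.map_zero, zero_pow]
          exact (Nat.mul_pos hm (Good.pos (K := Om) (l := l) (μ := μ) (a := a) j)).ne'
      · rw [if_neg h1, if_neg (fun h => h1 h.1)]
    have hQ : aeval z (P * P.comp (X ^ (l - 1)) - C ((cq F : ℤ) ^ n)) = 0 := by
      have h1 := hG F l χ n μ lam 1 hl hχ
        (fun j => ⟨Good.pos (K := Om) (l := l) (μ := μ) (a := a) j,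
          Good.lt (K := Om) (l := l) (μ := μ) (a := a) j⟩)
        (Good.inf (K := Om) (l := l) (μ := μ) (a := a)) hlam Nat.one_pos hl.one_lt
      rw [hcJ 1 Nat.one_pos, hcJ (l - 1) (Nat.sub_pos_of_lt hl.one_lt), pow_one] at h1
      rw [map_sub, map_mul, hPev2, h1, aeval_C, map_pow, map_natCast, sub_self]
    have hdvd : cyclotomic l ℤ ∣ P * P.comp (X ^ (l - 1)) - C ((cq F : ℤ) ^ n) := by
      rw [cyclotomic_eq_minpoly hz hl1]
      exact minpoly.isIntegrallyClosed_dvd (hz.isIntegral hl1) hQ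
    obtain ⟨R, hR⟩ := hdvd
    rw [hR, map_mul, hcyc, zero_mul]

theorem QB3 (hQG2 : QG2_stmt) (hQP3 : QP3_stmt) (hNB1 : TQ.NB1_stmt) : QB3_stmt := by
  classical
  intro l n q _ _ μ a _ _ F _ _ _ χ hχ
  refine ⟨?_, ?_⟩
  · intro lam hlam
    obtain ⟨Z, P, h1, h2, h3⟩ := QB3_main hQG2 hNB1 l n q μ a F χ hχ lam hlam
    have hsq : ((-1 : Module.End ℚ_[q] (VT q (JC Om l μ a))) ^ n) * (-1) ^ n = 1 := by
      rw [← pow_add, ← two_mul, pow_mul, neg_one_sq, one_pow]
    have hcm : ∀ Y : Module.End ℚ_[q] (VT q (JC Om l μ a)), Y * (-1) ^ n = (-1) ^ n * Y := by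
      intro Y
      exact ((Commute.neg_one_right Y).pow_right _).eq
    have h4 : aeval Z P * aeval Z (P.comp (X ^ (l - 1))) =
        (cq F : ℚ_[q]) ^ n • (1 : Module.End ℚ_[q] (VT q (JC Om l μ a))) := by
      rw [map_sub, map_mul, aeval_C, sub_eq_zero] at h3
      rw [h3, map_pow, map_natCast]
      have h6 : ((cq F : ℚ_[q]) ^ n • (1 : Module.End ℚ_[q] (VT q (JC Om l μ a)))) =
          algebraMap ℚ_[q] (Module.End ℚ_[q] (VT q (JC Om l μ a))) ((cq F : ℚ_[q]) ^ n) :=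
        (Algebra.algebraMap_eq_smul_one _).symm
      rw [h6, map_pow, map_natCast]
    have h5 : aeval Z (P.comp (X ^ (l - 1))) * aeval Z P =
        (cq F : ℚ_[q]) ^ n • (1 : Module.End ℚ_[q] (VT q (JC Om l μ a))) := by
      rw [← h4, ← map_mul, ← map_mul, mul_comm]
    refine ⟨?_, ?_⟩
    · rw [h1, h2, mul_assoc, ← mul_assoc _ _ (aeval Z P), hcm, mul_assoc, ← mul_assoc, hsq, one_mul, h5]
    · rw [h1, h2, mul_assoc, ← mul_assoc _ _ (aeval Z (P.comp (X ^ (l - 1)))), hcm, mul_assoc,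
        ← mul_assoc, hsq, one_mul, h4]
  · intro A hA
    refine ⟨?_, ?_⟩
    · rw [cfQ, cWQ]
      refine congrArg (fun T => (-1) ^ n * T) ?_
      have h := hQP3 F n A hA (Module.End ℚ_[q] (VT q (JC Om l μ a)))
        (fun w => zK q (ru l (∏ j, χ (w j) ^ μ j))⁻¹)
      refine h.trans ?_
      refine Finset.sum_congr rfl fun w _ => ?_
      by_cases hw : ∑ j, lm A j * w j = 1 ∧ ∀ j, w j ≠ 0
      · rw [if_pos hw]
      · rw [if_neg hw]
    · obtain ⟨-, hone, -⟩ := QB3_facts hNB1 l n q μ a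
      rw [cfQ]
      have h1 : Gq A 0 = Finset.univ := by
        rw [Gq, Finset.filter_true_of_mem]
        intro c _ j
        simp [gq]
      rw [h1, Finset.univ_unique, Finset.sum_singleton]
      have h2 : ∀ c : Fin 0 → F, (∏ j, χ ((gq c).eval (A j)) ^ μ j) = 1 := by
        intro c
        refine Finset.prod_eq_one fun j _ => ?_
        simp [gq]
      rw [h2]
      have h3 : (ru l (1 : Om))⁻¹ = 1 := by
        rw [inv_eq_one]
        apply Subtype.ext
        apply Units.ext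
        rw [QB3_ru_coe (1 : Om) (one_pow l)]
        rfl
      rw [h3]
      exact hone

end

end Pool.Agent.TFQ
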